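import Pool.Agent.H12.RPR.RAR
import Pool.Agent.H95.RPR.RAD

/-!
# AR: the entropy decrement for the twisted dilations
-/

set_option autoImplicit false

open Finset Filter Topology

namespace Pool.Agent.H12.RP

open Pool.Agent.H91.LF (Mean Dil Bdd bdd_const bdd_add bdd_mul bdd_smul bdd_sub bdd_sum bdd_comp)
open Pool.Agent.H36.RP
open Pool.Agent.H12.RPR (dil1 dens sub_E_le)

lemma bdd_dil (p : ℕ) (q : (Fin 1 → ℤ) → ℝ) (hq : Bdd q) :
    Bdd (fun ω : Fin 1 → ℤ => (p : ℝ) * if (p : ℤ) ∣ ω 0 then q ω else 0) := by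
  refine bdd_smul _ ?_
  obtain ⟨D, hD⟩ := hq
  refine ⟨D, fun ω => ?_⟩
  dsimp only
  split_ifs
  · exact hD ω
  · rw [abs_zero]
    exact (abs_nonneg _).trans (hD ω)

/-- the exceptional points -/
noncomputable def exc (H p : ℕ) (n : ℤ) : ℝ :=
  2 * ∑ k ∈ Icc (-(H : ℤ)) H, (if (p : ℤ) ∣ n + k then (1 : ℝ) else 0)

lemma exc_ite_bdd (p : ℕ) (k : ℤ) :
    Bdd (fun n : ℤ => if (p : ℤ) ∣ n + k then (1 : ℝ) else 0) :=
  ⟨1, fun n => by dsimp only; split_ifs <;> simp⟩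

lemma exc_bdd (H p : ℕ) : Bdd (exc H p) :=
  bdd_smul 2 (bdd_sum _ _ fun k _ => exc_ite_bdd p k)

lemma exc_nonneg (H p : ℕ) (n : ℤ) : 0 ≤ exc H p n := by
  unfold exc
  exact mul_nonneg (by norm_num) (sum_nonneg fun k _ => by split_ifs <;> norm_num)

lemma exc_E (M : Mean 1) (hM : Dil M) (H p : ℕ) (hp : p.Prime) :
    M.E (fun ω => exc H p (ω 0)) = 2 * (2 * H + 1) / p := by
  have h1 : Bdd (fun ω : Fin 1 → ℤ => ∑ k ∈ Icc (-(H : ℤ)) H,
      (if (p : ℤ) ∣ ω 0 + k then (1 : ℝ) else 0)) :=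
    bdd_sum _ _ fun k _ => bdd_comp (exc_ite_bdd p k) fun ω : Fin 1 → ℤ => ω 0
  unfold exc
  rw [M.smul _ _ h1, M.E_sum _ _ fun k _ => bdd_comp (exc_ite_bdd p k) fun ω : Fin 1 → ℤ => ω 0]
  rw [sum_congr rfl fun k _ => dens M hM p hp k, sum_const, nsmul_eq_mul, Int.card_Icc]
  have h2 : (((H : ℤ) + 1 - -(H : ℤ)).toNat : ℝ) = 2 * H + 1 := by
    have h3 : ((H : ℤ) + 1 - -(H : ℤ)) = ((2 * H + 1 : ℕ) : ℤ) := by push_cast; ring
    rw [h3, Int.toNat_natCast]
    push_cast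
    ring
  rw [h2]
  ring

lemma exc_ge (H p : ℕ) (n : ℤ) (h : ∃ k ∈ Icc (-(H : ℤ)) H, (p : ℤ) ∣ n + k) :
    2 ≤ exc H p n := by
  obtain ⟨k, hk, hd⟩ := h
  have h2 := single_le_sum (f := fun k : ℤ => if (p : ℤ) ∣ n + k then (1 : ℝ) else 0)
    (fun k _ => by split_ifs <;> norm_num) hk
  rw [if_pos hd] at h2
  unfold exc
  linarith

theorem pf_AR : T_AR := by
  classical
  intro M hM F hF hmul H
  have hx : ∀ n, ∃ a : Fin 3, ((a : ℕ) : ℝ) - 1 = F n := by
    intro n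
    rcases hF n with h | h | h
    · exact ⟨0, by rw [h]; norm_num⟩
    · exact ⟨1, by rw [h]; norm_num⟩
    · exact ⟨2, by rw [h]; norm_num⟩
  choose x hx using hx
  obtain ⟨C, hC⟩ := Pool.Agent.H95.RPR.pf_RAD M (Fin 3) inferInstance x H
  refine ⟨2 * C + 2 * (2 * (2 * H + 1)) ^ 2 * ∑' n : ℕ, 1 / (n : ℝ) ^ 3, ?_⟩
  intro Φ hΦ hloc S hS
  have h1 := hC (fun p z => Φ (fun k => F p * ((((z k : Fin 3) : ℕ) : ℝ) - 1)))
    (fun p z => hΦ _) (fun p z z' hz => hloc _ _ fun k hk => by rw [hz k hk]) S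
    (fun p hp => (hS p hp).1)
  have key : ∀ p ∈ S, (1 / (p : ℝ)) * (M.E (fun ω => Φ (fun k => F p * F (ω 0 + p * k))) -
        M.E (fun ω => Φ (fun k => F (ω 0 + k)))) ^ 2 ≤
      2 * ((1 / (p : ℝ)) * (M.E (fun ω => (p : ℝ) * if (p : ℤ) ∣ ω 0 then
          Φ (fun k => F p * (((x (ω 0 + p * k) : ℕ) : ℝ) - 1)) else 0) -
        M.E (fun ω => Φ (fun k => F p * (((x (ω 0 + p * k) : ℕ) : ℝ) - 1)))) ^ 2) +
      2 * (2 * (2 * H + 1)) ^ 2 * (1 / (p : ℝ) ^ 3) := by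
    intro p hp
    obtain ⟨hpp, hpF⟩ := hS p hp
    have hp0 : (0 : ℝ) < p := by exact_mod_cast hpp.pos
    have hFF : F p * F p = 1 := by
      rcases hF p with h | h | h
      · rw [h]; norm_num
      · exact absurd h hpF
      · rw [h]; norm_num
    simp only [hx]
    have hpt : ∀ m : ℤ, |Φ (fun k => F p * F ((p : ℤ) * m + p * k)) - Φ (fun k => F (m + k))| ≤
        exc H p m := by
      intro m
      by_cases hd : ∃ k ∈ Icc (-(H : ℤ)) H, (p : ℤ) ∣ m + k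
      · refine le_trans ?_ (exc_ge H p m hd)
        refine (abs_sub _ _).trans ?_
        have h4 := hΦ (fun k => F p * F ((p : ℤ) * m + p * k))
        have h5 := hΦ (fun k => F (m + k))
        linarith
      · push Not at hd
        have h2 : Φ (fun k => F p * F ((p : ℤ) * m + p * k)) = Φ (fun k => F (m + k)) := by
          refine hloc _ _ fun k hk => ?_
          have h3 := hd k (by
            rw [mem_Icc]
            exact abs_le.1 hk)
          have h4 : (p : ℤ) * m + p * k = p * (m + k) := by ring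
          rw [h4, hmul p (m + k) hpp h3, ← mul_assoc, hFF, one_mul]
        rw [h2, sub_self, abs_zero]
        exact exc_nonneg H p m
    have s2 : |M.E (fun ω => (p : ℝ) * if (p : ℤ) ∣ ω 0 then
          Φ (fun k => F p * F (ω 0 + p * k)) else 0) - M.E (fun ω => Φ (fun k => F (ω 0 + k)))| ≤
        2 * (2 * H + 1) / p := by
      rw [← exc_E M hM H p hpp, ← dil1 M hM p hpp (exc H p) (exc_bdd H p),
        ← dil1 M hM p hpp (fun n => Φ (fun k => F (n + k))) ⟨1, fun n => hΦ _⟩]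
      have b3 : Bdd (fun ω : Fin 1 → ℤ => exc H p (ω 0 / p)) := by
        obtain ⟨D, hD⟩ := exc_bdd H p
        exact ⟨D, fun ω => hD _⟩
      refine sub_E_le M (bdd_dil p _ ⟨1, fun ω => hΦ _⟩) (bdd_dil p _ ⟨1, fun ω => hΦ _⟩)
        (bdd_dil p _ b3) ?_
      intro ω
      by_cases hd : (p : ℤ) ∣ ω 0
      · rw [if_pos hd, if_pos hd, if_pos hd, ← mul_sub, abs_mul, abs_of_pos hp0]
        refine mul_le_mul_of_nonneg_left ?_ hp0.le
        obtain ⟨m, hm⟩ := hd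
        have hpz : (p : ℤ) ≠ 0 := by exact_mod_cast hpp.ne_zero
        rw [hm, Int.mul_ediv_cancel_left m hpz]
        exact hpt m
      · rw [if_neg hd, if_neg hd, if_neg hd]
        simp
    set a := M.E (fun ω => Φ (fun k => F p * F (ω 0 + p * k)))
    set c := M.E (fun ω => (p : ℝ) * if (p : ℤ) ∣ ω 0 then
          Φ (fun k => F p * F (ω 0 + p * k)) else 0)
    set e := M.E (fun ω => Φ (fun k => F (ω 0 + k)))
    have h3 : (c - e) ^ 2 ≤ (2 * (2 * H + 1) / p) ^ 2 := by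
      rw [← sq_abs (c - e)]
      exact pow_le_pow_left₀ (abs_nonneg _) s2 2
    have h4 : (a - e) ^ 2 ≤ 2 * (c - a) ^ 2 + 2 * (2 * (2 * H + 1) / p) ^ 2 := by
      nlinarith [sq_nonneg (a - c - (c - e))]
    calc 1 / (p : ℝ) * (a - e) ^ 2 ≤
          1 / (p : ℝ) * (2 * (c - a) ^ 2 + 2 * (2 * (2 * H + 1) / p) ^ 2) :=
          mul_le_mul_of_nonneg_left h4 (by positivity)
      _ = _ := by
          field_simp
  refine (sum_le_sum key).trans ?_
  rw [sum_add_distrib, ← mul_sum, ← mul_sum]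
  refine add_le_add (mul_le_mul_of_nonneg_left h1 (by norm_num)) ?_
  refine mul_le_mul_of_nonneg_left ?_ (by positivity)
  exact (Real.summable_one_div_nat_pow.2 (by norm_num)).sum_le_tsum S fun n _ => by positivity

end Pool.Agent.H12.RP
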