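import Pool.Agent.H36.RP.Targets

/-!
# ST: from the arithmetic to the measure
-/

set_option autoImplicit false

open MeasureTheory ProbabilityTheory Filter Topology Finset

namespace Pool.Agent.H12.RP

open Pool.Agent.H89.MT (I1 X pt z1 IsMult)
open Pool.Agent.H91.LF (Mean Dil Bdd)
open Pool.Agent.H36.RP

/-- the function on the integers -/
noncomputable def FF (u : ℕ → I1) (n : ℤ) : ℝ := if 0 < n then (u n.toNat : ℝ) else 0

lemma pt_val (u : ℕ → I1) (n : ℕ) (k : ℤ) : ((pt u n k : I1) : ℝ) = FF u (n + k) := by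
  unfold pt FF
  split_ifs with h
  · rfl
  · rfl

/-- the clamp -/
noncomputable def cl (z : ℤ → ℝ) : X := fun k => Set.projIcc (-1) 1 (by norm_num) (z k)

lemma cl_eq (x : X) : cl (fun k => (x k : ℝ)) = x := by
  funext k
  exact Set.projIcc_val _ (x k)

lemma FF_val (u : ℕ → I1) (hu : ∀ n, (u n : ℝ) = -1 ∨ (u n : ℝ) = 0 ∨ (u n : ℝ) = 1) (n : ℤ) :
    FF u n = -1 ∨ FF u n = 0 ∨ FF u n = 1 := by
  unfold FF
  split_ifs
  · exact hu _
  · exact Or.inr (Or.inl rfl)

lemma FF_nat (u : ℕ → I1) (p : ℕ) (hp : 0 < p) : FF u p = u p := by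
  unfold FF
  rw [if_pos (by exact_mod_cast hp), Int.toNat_natCast]

lemma FF_mul (u : ℕ → I1) (hu : IsMult u) (p : ℕ) (m : ℤ) (hp : p.Prime)
    (hm : ¬ (p : ℤ) ∣ m) : FF u (p * m) = FF u p * FF u m := by
  have hp0 : (0 : ℤ) < p := by exact_mod_cast hp.pos
  by_cases h : 0 < m
  · obtain ⟨a, rfl⟩ := Int.eq_ofNat_of_zero_le h.le
    have ha : 0 < a := by exact_mod_cast h
    have h1 : ((p : ℤ) * (a : ℤ)) = ((p * a : ℕ) : ℤ) := by push_cast; ring
    rw [h1, FF_nat u _ (Nat.mul_pos hp.pos ha), FF_nat u p hp.pos, FF_nat u a ha]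
    have h2 : ¬ p ∣ a := fun hd => hm (by exact_mod_cast hd)
    exact hu.2 p a hp.pos ha ((Nat.Prime.coprime_iff_not_dvd hp).2 h2)
  · have h1 : ¬ 0 < (p : ℤ) * m := by
      have h2 : (p : ℤ) * m ≤ 0 := mul_nonpos_of_nonneg_of_nonpos hp0.le (not_lt.1 h)
      exact not_lt.2 h2
    unfold FF
    rw [if_neg h1, if_neg h, mul_zero]

lemma dil_cont (s : I1) (p : ℕ) : Continuous (dil s p) := by
  refine continuous_pi fun k => ?_
  refine Continuous.subtype_mk ?_ _
  exact continuous_const.mul (continuous_subtype_val.comp (continuous_apply _))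

lemma dil_pt (u : ℕ → I1) (p n : ℕ) (hp : 0 < p) :
    cl (fun k => FF u p * FF u ((n : ℤ) + p * k)) = dil (u p) p (pt u n) := by
  rw [← cl_eq (dil (u p) p (pt u n))]
  congr 1
  funext k
  rw [FF_nat u p hp]
  change (u p : ℝ) * FF u ((n : ℤ) + p * k) = (u p : ℝ) * ((pt u n (p * k) : I1) : ℝ)
  rw [pt_val]

lemma id_pt (u : ℕ → I1) (n : ℕ) : cl (fun k => FF u ((n : ℤ) + k)) = pt u n := by
  rw [← cl_eq (pt u n)]
  congr 1
  funext k
  rw [pt_val]

theorem pf_ST : T_MW → T_AR → T_ST := by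
  intro hMW hAR u hu hv hns κ _ hq G H hG hloc ε Q hε
  obtain ⟨Y, Z, hYZ, hlog, hF⟩ := hq
  obtain ⟨M, hM, hE⟩ := hMW Y Z hYZ hlog
  obtain ⟨C, hC⟩ := hAR M hM (FF u) (FF_val u hv) (FF_mul u hu) H
  -- a bound of `G`
  obtain ⟨B, hB0, hB⟩ : ∃ B : ℝ, 0 < B ∧ ∀ x, |G x| ≤ B := by
    obtain ⟨B, hB⟩ := (isCompact_range hG).isBounded.exists_norm_le
    refine ⟨max B 1, lt_of_lt_of_le one_pos (le_max_right _ _), fun x => ?_⟩
    exact (hB (G x) ⟨x, rfl⟩).trans (le_max_left _ _)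
  set Φ : (ℤ → ℝ) → ℝ := fun z => G (cl z) / B with hΦ
  have hΦ1 : ∀ z, |Φ z| ≤ 1 := by
    intro z
    rw [hΦ, abs_div, abs_of_pos hB0]
    exact (div_le_one hB0).2 (hB _)
  have hΦ2 : ∀ z z' : ℤ → ℝ, (∀ k : ℤ, |k| ≤ H → z k = z' k) → Φ z = Φ z' := by
    intro z z' hz
    have h1 : G (cl z) = G (cl z') := hloc _ _ fun k hk => by
      unfold cl
      rw [hz k hk]
    rw [hΦ]
    change G (cl z) / B = G (cl z') / B
    rw [h1]
  have hA : M.E (fun ω => Φ (fun k => FF u (ω 0 + k))) = (∫ x, G x ∂κ) / B := by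
    refine hE (fun n => Φ (fun k => FF u (n + k))) 1 _ (fun n => hΦ1 _) ?_
    have h1 := (hF ⟨G, hG⟩).div_const B
    refine h1.congr fun k => ?_
    rw [div_right_comm, sum_div]
    congr 1
    refine sum_congr rfl fun n _ => ?_
    change G (pt u n) / n / B = G (cl (fun k => FF u ((n : ℤ) + k))) / B / n
    rw [id_pt, div_right_comm]
  have hBp : ∀ p : ℕ, 0 < p → M.E (fun ω => Φ (fun k => FF u p * FF u (ω 0 + p * k))) =
      (∫ x, G (dil (u p) p x) ∂κ) / B := by
    intro p hp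
    refine hE (fun n => Φ (fun k => FF u p * FF u (n + p * k))) 1 _ (fun n => hΦ1 _) ?_
    have h1 := (hF ⟨fun x => G (dil (u p) p x), hG.comp (dil_cont (u p) p)⟩).div_const B
    refine h1.congr fun k => ?_
    rw [div_right_comm, sum_div]
    congr 1
    refine sum_congr rfl fun n _ => ?_
    change G (dil (u p) p (pt u n)) / n / B =
      G (cl (fun k => FF u p * FF u ((n : ℤ) + p * k))) / B / n
    rw [dil_pt u p n hp, div_right_comm]
  by_contra hcon
  push Not at hcon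
  apply hns
  have key : ∀ S : Finset ℕ, (∀ p ∈ S, p.Prime ∧ FF u p ≠ 0 ∧ Q ≤ p) →
      ∑ p ∈ S, (1 : ℝ) / p ≤ C * (B / ε) ^ 2 := by
    intro S hS
    have h1 := hC Φ hΦ1 hΦ2 S (fun p hp => ⟨(hS p hp).1, (hS p hp).2.1⟩)
    have h2 : ∀ p ∈ S, (1 / (p : ℝ)) * (ε / B) ^ 2 ≤ (1 / (p : ℝ)) *
        (M.E (fun ω => Φ (fun k => FF u p * FF u (ω 0 + p * k))) -
        M.E (fun ω => Φ (fun k => FF u (ω 0 + k)))) ^ 2 := by
      intro p hp
      obtain ⟨hpp, hp0, hpQ⟩ := hS p hp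
      refine mul_le_mul_of_nonneg_left ?_ (by positivity)
      rw [hA, hBp p hpp.pos, ← sub_div, div_pow, div_pow]
      refine div_le_div_of_nonneg_right ?_ (by positivity)
      have h3 : ((u p : I1) : ℝ) ^ 2 = 1 := by
        rw [FF_nat u p hpp.pos] at hp0
        rcases hv p with h | h | h
        · rw [h]; norm_num
        · exact absurd h hp0
        · rw [h]; norm_num
      have h4 := hcon p hpQ (u p) h3
      rw [← sq_abs (∫ x, G (dil (u p) p x) ∂κ - ∫ x, G x ∂κ)]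
      exact pow_le_pow_left₀ hε.le h4.le 2
    have h3 : (∑ p ∈ S, (1 : ℝ) / p) * (ε / B) ^ 2 ≤ C := by
      rw [sum_mul]
      exact (sum_le_sum h2).trans h1
    have h4 : (0 : ℝ) < (ε / B) ^ 2 := by positivity
    have h5 : C * (B / ε) ^ 2 = C / (ε / B) ^ 2 := by
      rw [div_pow, div_pow]
      field_simp
    rw [h5, le_div_iff₀ h4]
    exact h3
  refine summable_of_sum_le (c := (Q : ℝ) + C * (B / ε) ^ 2) ?_ ?_
  · intro p
    change (0 : ℝ) ≤ if p.Prime ∧ ((u p : I1) : ℝ) ≠ 0 then (1 : ℝ) / p else 0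
    split_ifs
    · positivity
    · exact le_rfl
  · intro T
    have h1 : ∀ p ∈ T, (if p.Prime ∧ ((u p : I1) : ℝ) ≠ 0 then (1 : ℝ) / p else 0) ≤
        (if p < Q then (1 : ℝ) else 0) +
        (if p.Prime ∧ FF u p ≠ 0 ∧ Q ≤ p then (1 : ℝ) / p else 0) := by
      intro p _
      by_cases hp : p.Prime ∧ ((u p : I1) : ℝ) ≠ 0
      · rw [if_pos hp]
        have hp1 : (1 : ℝ) ≤ p := by exact_mod_cast hp.1.one_lt.le
        by_cases hQ : p < Q
        · rw [if_pos hQ]
          have h2 : (1 : ℝ) / p ≤ 1 := (div_le_one (by linarith)).2 hp1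
          have h3 : (0 : ℝ) ≤ if p.Prime ∧ FF u p ≠ 0 ∧ Q ≤ p then (1 : ℝ) / p else 0 := by
            split_ifs
            · positivity
            · exact le_rfl
          linarith
        · rw [if_neg hQ, if_pos ⟨hp.1, by rw [FF_nat u p hp.1.pos]; exact hp.2, not_lt.1 hQ⟩]
          linarith
      · rw [if_neg hp]
        have h3 : (0 : ℝ) ≤ if p.Prime ∧ FF u p ≠ 0 ∧ Q ≤ p then (1 : ℝ) / p else 0 := by
          split_ifs
          · positivity
          · exact le_rfl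
        have h4 : (0 : ℝ) ≤ if p < Q then (1 : ℝ) else 0 := by
          split_ifs
          · exact zero_le_one
          · exact le_rfl
        linarith
    refine (sum_le_sum h1).trans ?_
    rw [sum_add_distrib]
    refine add_le_add ?_ ?_
    · rw [← sum_filter, sum_const, nsmul_eq_mul, mul_one]
      have h2 : (T.filter fun p => p < Q) ⊆ range Q := by
        intro p hp
        rw [mem_filter] at hp
        exact mem_range.2 hp.2
      have h3 := card_le_card h2
      rw [card_range] at h3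
      exact_mod_cast h3
    · rw [← sum_filter]
      refine key _ fun p hp => ?_
      rw [mem_filter] at hp
      exact hp.2

end Pool.Agent.H12.RP
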